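import Mathlib
import Pool.Agent.X80.SchrijverBound

/-!
# Critical edges at regular vertices of Schrijver graphs
-/

set_option autoImplicit false

namespace Pool.Agent.Results.MP_b71732_co.RegularEdgesCritical

open Pool.Agent.X80.SG

/-- Every edge `VW` of the Schrijver graph `SG(n,k)` with a regular end `V` is critical:
deleting it lowers the chromatic number (to at most `n - 2k + 1`). -/
theorem result (n k : ℕ) (hn : 3 ≤ n) (hk : 1 ≤ k) (hnk : 2 * k ≤ n) (V W : Vert n k)
    (hadj : (SG n k).Adj V W) (hreg : Regular V.1) :
    ((SG n k).deleteEdges {s(V, W)}).chromaticNumber < (SG n k).chromaticNumber ∧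
      ((SG n k).deleteEdges {s(V, W)}).Colorable (n - 2 * k + 1) := by
  have h := colorable_deleteEdge hn hnk V W hadj hreg
  refine ⟨?_, h⟩
  by_contra hlt
  rw [not_lt] at hlt
  have h1 := SimpleGraph.chromaticNumber_le_iff_colorable.1 (hlt.trans h.chromaticNumber_le)
  have h2 := schrijver_le hn hk hnk h1
  omega

end Pool.Agent.Results.MP_b71732_co.RegularEdgesCritical
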